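import Mathlib
import Pool.Agent.V11310.CL.Open
import Pool.Agent.TH941.MR.Lead
import Pool.Agent.H248R5.Gen
import Pool.Agent.H248R6.Dim

set_option autoImplicit false

/-!
# Restriction to exceptional curves has maximal rank for the closure of the known classes

`X` is the blow-up of the plane at `n` general points `P i`, `D = d H - ∑ w i E i`, and
`ρ : H⁰(D) → H⁰(O_E(D · E))` for `E = E j`. The map `ρ` is injective or surjective if the class of
`D - E j` is reached, or if `n ≥ 4` and finitely many reflections carry it to a standard class which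
is reached.

`Reached N0 d w` (`Pool.Agent.V11310.CL.Reached`): the multiset of the multiplicities `w` belongs, in
degree `d`, to the smallest class of multisets of multiplicities with one of the two signs (no curves,
independent conditions) which contains the comparable, the large and the good classes (`Base`) and is
closed under collisions (a point of multiplicity `μ` may be replaced by points `M'` if `M'` is in the
class in degree `μ - 1`), quadratic transformations, doubling (four points of multiplicity `m` for one
point of the multiplicities `2 m` and `2 m + 1`), adding or removing points and changing the degree.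
-/

namespace Pool.Agent.Results.MP_5bb273_ag.ReachedMaximalRank

open MvPolynomial Pool.Agent.V11310.CL

/-- `H⁰(d H - ∑ w i E i)`: the forms of degree `d` vanishing to order at least `w i` at the points
`(P i 0 : P i 1 : 1)`. -/
noncomputable def sections {n : ℕ} (P : Fin n → Fin 2 → ℂ) (d : ℕ)
    (w : Fin n → ℕ) : Submodule ℂ (MvPolynomial (Fin 3) ℂ) :=
  homogeneousSubmodule (Fin 3) ℂ d ⊓
    Submodule.restrictScalars ℂ
      (⨅ i : Fin n, (Ideal.span {X 0 - C (P i 0) * X 2, X 1 - C (P i 1) * X 2} :
        Ideal (MvPolynomial (Fin 3) ℂ)) ^ (w i))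

/-- The local equation `F (a + x, b + y, 1)` of `F` at the point `p = (a : b : 1)`. -/
noncomputable def localEquation (p : Fin 2 → ℂ) :
    MvPolynomial (Fin 3) ℂ →ₐ[ℂ] MvPolynomial (Fin 2) ℂ :=
  aeval ![X 0 + C (p 0), X 1 + C (p 1), 1]

/-- The restriction map `ρ` from `H⁰(D)`, `D = d H - ∑ w i E i`, to the exceptional curve `E j`:
`D · E j = w j`, the sections of `O_E(D · E j)` are the binary forms of degree `w j`, and `ρ` sends
`F` to the term of degree `w j` of its local equation at `P j`. -/
noncomputable def rho {n : ℕ} (P : Fin n → Fin 2 → ℂ) (d : ℕ) (w : Fin n → ℕ)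
    (j : Fin n) : sections P d w →ₗ[ℂ] homogeneousSubmodule (Fin 2) ℂ (w j) :=
  LinearMap.codRestrict _
    ((homogeneousComponent (w j)) ∘ₗ (localEquation (P j)).toLinearMap ∘ₗ (sections P d w).subtype)
    fun _ => homogeneousComponent_mem _ _

/-- The multiplicities of `D - E j`. -/
def minusE {n : ℕ} (w : Fin n → ℕ) (j : Fin n) : Fin n → ℕ := Function.update w j (w j + 1)

open Pool.Agent Finset Pool.Agent.H248R5 Pool.Agent.H248R6 in
theorem expDim_of_more {n : ℕ} {v w : Fin n → ℕ} {P : Fin n → Fin 2 → ℂ} {d : ℕ}
    (h : H932R3.ExpDim ℂ v P d) (hd : ∑ i, (v i + 1).choose 2 ≤ (d + 2).choose 2)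
    (hu : ∀ i, w i ≤ v i) : H932R3.ExpDim ℂ w P d := by
  have h1 : Module.finrank ℂ ↥(forms v P d) = (d + 2).choose 2 - ∑ i, (v i + 1).choose 2 := h
  have h2 : Function.Surjective (ev w P d) := surj_mono hu (surj_of_ind (by omega))
  have h4 := finrank_of_surj h2
  have h5 : Module.finrank ℂ ↥(forms w P d) = (d + 2).choose 2 - ∑ i, (w i + 1).choose 2 := by
    omega
  exact h5

theorem result : ∃ N0 : ℕ, ∀ (n d : ℕ) (w : Fin n → ℕ), (Base N0 d w → Reached N0 d w) ∧
    ∀ j : Fin n, (Reached N0 d (minusE w j) ∨ (4 ≤ n ∧ Covered N0 d (minusE w j))) →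
      ∃ F : MvPolynomial (Fin n × Fin 2) ℂ, F ≠ 0 ∧ ∀ P : Fin n → Fin 2 → ℂ,
        MvPolynomial.eval (fun ij : Fin n × Fin 2 => P ij.1 ij.2) F ≠ 0 →
          Function.Injective (rho P d w j) ∨ Function.Surjective (rho P d w j) := by
  obtain ⟨N0, hN0⟩ := Pool.Agent.Y939.NC.reg_exp
  refine ⟨N0, fun n d w => ⟨reached_of_base, fun j h => ?_⟩⟩
  obtain ⟨F, hF, hF'⟩ := Pool.Agent.TH442.NF.to_open (d := d) (w := minusE w j)
    fun {K} _ _ P hP => h.elim (fun h => reached_exp hN0 h hP)
      fun h => covered_exp hN0 h.1 h.2 hP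
  refine ⟨F.map (algebraMap ℚ ℂ), Pool.Agent.H932R3.map_ne_zero_of hF, fun P hP => ?_⟩
  rw [MvPolynomial.eval_map] at hP
  have h3 := hF' (L := ℂ) P hP
  have h4 : Module.finrank ℂ ↥(Pool.Agent.TH941.MR.forms P d (Function.update w j (w j + 1))) =
      (d + 2).choose 2 - ∑ i, (Function.update w j (w j + 1) i + 1).choose 2 := h3
  by_cases hχ : ∑ i, (minusE w j i + 1).choose 2 ≤ (d + 2).choose 2
  · have h5 : Module.finrank ℂ ↥(Pool.Agent.TH941.MR.forms P d w) =
        (d + 2).choose 2 - ∑ i, (w i + 1).choose 2 :=
      expDim_of_more h3 hχ fun i => by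
        unfold minusE
        by_cases hi : i = j
        · subst hi
          rw [Function.update_self]
          omega
        · rw [Function.update_of_ne hi]
    exact Pool.Agent.TH941.MR.maxRank_of h5 h4
  · left
    have h6 : Module.finrank ℂ
        ↥(Pool.Agent.TH941.MR.forms P d (Function.update w j (w j + 1))) = 0 := by
      rw [h4]
      unfold minusE at hχ
      omega
    have hfin : Module.Finite ℂ
        ↥(Pool.Agent.TH941.MR.forms P d (Function.update w j (w j + 1))) := by
      have hfin3 : Module.Finite ℂ (homogeneousSubmodule (Fin 3) ℂ d) :=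
        Module.Finite.iff_fg.2 (homogeneousSubmodule_fg (Fin 3) ℂ d)
      exact Submodule.finiteDimensional_of_le (S₂ := homogeneousSubmodule (Fin 3) ℂ d) inf_le_left
    have h7 := Submodule.finrank_eq_zero.1 h6
    have h8 : Function.Injective (Pool.Agent.TH941.MR.rho P d w j) := by
      rw [← LinearMap.ker_eq_bot, LinearMap.ker_eq_bot']
      intro x hx
      have h9 := Pool.Agent.TH941.MR.ker_rho hx
      rw [h7, Submodule.mem_bot] at h9
      exact Subtype.ext h9
    exact h8

end Pool.Agent.Results.MP_5bb273_ag.ReachedMaximalRank
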